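/-
helper30.  [MD1] of helper88's part M of MP_7b8095_gt: length-area argument.  The pullback of
Lebesgue measure under a weakly quasisymmetric homeomorphism of `ℝ³` is not singular.
-/
import Pool.Agent.helper88.WB.MDefs

set_option autoImplicit false
open Matrix MeasureTheory Filter Topology Set
open scoped ENNReal

namespace Pool.Agent.helper30.WB
open Pool.Agent.helper88.WB

/-- density at scale `r` -/
noncomputable def dn (ν : Measure E) (r : ℝ) (x : E) : ℝ≥0∞ :=
  ν (Metric.closedBall x r) / (volume : Measure E) (Metric.closedBall x r)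

theorem volume_closedBall_eq (x : E) {r : ℝ} (hr : 0 ≤ r) :
    (volume : Measure E) (Metric.closedBall x r) =
      ENNReal.ofReal (r ^ 3) * (volume : Measure E) (Metric.ball 0 1) := by
  have := Measure.addHaar_closedBall (volume : Measure E) x hr
  simpa using this

theorem measurable_meas_closedBall (ν : Measure E) [SFinite ν] (r : ℝ) :
    Measurable (fun x : E => ν (Metric.closedBall x r)) := by
  have hs : MeasurableSet {p : E × E | dist p.2 p.1 ≤ r} :=
    (isClosed_le (by fun_prop) continuous_const).measurableSet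
  exact measurable_measure_prodMk_left hs

theorem measurable_dn (ν : Measure E) [SFinite ν] (r : ℝ) : Measurable (dn ν r) := by
  unfold dn
  exact (measurable_meas_closedBall ν r).div (measurable_meas_closedBall _ r)

/-- `∫_{B(0,R)} ν(closedBall x r) dx ≤ vol(ball r) ν(B(0,R+r))` -/
theorem lintegral_meas_closedBall_le (ν : Measure E) [SFinite ν] (R r : ℝ) (hr : 0 ≤ r) :
    ∫⁻ x in Metric.closedBall (0 : E) R, ν (Metric.closedBall x r) ≤
      (ENNReal.ofReal (r ^ 3) * (volume : Measure E) (Metric.ball 0 1)) *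
        ν (Metric.closedBall (0 : E) (R + r)) := by
  have hs : MeasurableSet {p : E × E | dist p.2 p.1 ≤ r} :=
    (isClosed_le (by fun_prop) continuous_const).measurableSet
  have h1 : ∫⁻ x in Metric.closedBall (0 : E) R, ν (Metric.closedBall x r) =
      (((volume : Measure E).restrict (Metric.closedBall (0 : E) R)).prod ν)
        {p : E × E | dist p.2 p.1 ≤ r} := by
    rw [Measure.prod_apply hs]
    rfl
  rw [h1, Measure.prod_apply_symm hs]
  have h2 : ∀ z : E, ((volume : Measure E).restrict (Metric.closedBall (0 : E) R))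
      ((fun x => (x, z)) ⁻¹' {p : E × E | dist p.2 p.1 ≤ r}) ≤
      (Metric.closedBall (0 : E) (R + r)).indicator
        (fun _ => ENNReal.ofReal (r ^ 3) * (volume : Measure E) (Metric.ball 0 1)) z := by
    intro z
    have hset : ((fun x => (x, z)) ⁻¹' {p : E × E | dist p.2 p.1 ≤ r}) = Metric.closedBall z r := by
      ext x
      simp [dist_comm]
    rw [hset, Measure.restrict_apply measurableSet_closedBall]
    by_cases hz : z ∈ Metric.closedBall (0 : E) (R + r)
    · rw [indicator_of_mem hz, ← volume_closedBall_eq z hr]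
      exact measure_mono inter_subset_left
    · have : Metric.closedBall z r ∩ Metric.closedBall (0 : E) R = ∅ := by
        rw [Set.eq_empty_iff_forall_notMem]
        rintro x ⟨hx1, hx2⟩
        apply hz
        simp only [Metric.mem_closedBall] at *
        calc dist z 0 ≤ dist z x + dist x 0 := dist_triangle _ _ _
          _ ≤ r + R := add_le_add (by rw [dist_comm]; exact hx1) hx2
          _ = R + r := add_comm _ _
      rw [this]; simp
  calc _ ≤ ∫⁻ z, (Metric.closedBall (0 : E) (R + r)).indicator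
        (fun _ => ENNReal.ofReal (r ^ 3) * (volume : Measure E) (Metric.ball 0 1)) z ∂ν :=
        lintegral_mono h2
    _ = _ := by
        rw [lintegral_indicator measurableSet_closedBall, setLIntegral_const]

theorem lintegral_dn_le (ν : Measure E) [SFinite ν] (R r : ℝ) (hr : 0 < r) :
    ∫⁻ x in Metric.closedBall (0 : E) R, dn ν r x ≤ ν (Metric.closedBall (0 : E) (R + r)) := by
  set c : ℝ≥0∞ := ENNReal.ofReal (r ^ 3) * (volume : Measure E) (Metric.ball 0 1) with hc
  have hc0 : c ≠ 0 := by
    rw [hc]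
    refine mul_ne_zero ?_ (Metric.measure_ball_pos _ _ one_pos).ne'
    simp only [ne_eq, ENNReal.ofReal_eq_zero, not_le]; positivity
  have hct : c ≠ ∞ := ENNReal.mul_ne_top ENNReal.ofReal_ne_top measure_ball_lt_top.ne
  have h1 : ∀ x, dn ν r x = ν (Metric.closedBall x r) * c⁻¹ := by
    intro x
    unfold dn
    rw [volume_closedBall_eq x hr.le, ← hc, div_eq_mul_inv]
  simp_rw [h1]
  rw [lintegral_mul_const _ (measurable_meas_closedBall ν r)]
  calc _ ≤ (c * ν (Metric.closedBall (0 : E) (R + r))) * c⁻¹ := by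
        gcongr
        exact lintegral_meas_closedBall_le ν R r hr.le
    _ = ν (Metric.closedBall (0 : E) (R + r)) * (c * c⁻¹) := by ring
    _ = _ := by rw [ENNReal.mul_inv_cancel hc0 hct, mul_one]

/-- the truncation -/
noncomputable def tr (K : ℝ≥0∞) (g : ℝ≥0∞) : ℝ≥0∞ := min (g ^ (1 / 3 : ℝ)) K

theorem le_tr_add {b g K : ℝ≥0∞} (hK0 : K ≠ 0) (hK : K ≠ ∞) (h : b ^ 3 ≤ g) :
    b ≤ tr K g + g / K ^ 2 := by
  rcases le_total b K with hb | hb
  · have : b ≤ tr K g := by
      refine le_min ?_ hb
      have h3 : b ≤ g ^ (3 : ℝ)⁻¹ := by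
        rw [ENNReal.le_rpow_inv_iff (by norm_num)]
        exact_mod_cast h
      rwa [one_div]
    exact this.trans le_self_add
  · have : b ≤ g / K ^ 2 := by
      rw [ENNReal.le_div_iff_mul_le (Or.inl (pow_ne_zero _ hK0)) (Or.inl (ENNReal.pow_ne_top hK))]
      calc b * K ^ 2 ≤ b * b ^ 2 := by gcongr
        _ = b ^ 3 := by ring
        _ ≤ g := h
    exact this.trans le_add_self

theorem tr_zero (K : ℝ≥0∞) : tr K 0 = 0 := by
  unfold tr
  rw [ENNReal.zero_rpow_of_pos (by norm_num)]
  simp

theorem continuous_tr (K : ℝ≥0∞) : Continuous (tr K) := by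
  unfold tr
  exact (ENNReal.continuous_rpow_const).min continuous_const

/-- the truncated densities tend to `0` in `L¹` -/
theorem tendsto_tr (ν : Measure E) [IsLocallyFiniteMeasure ν]
    (hν : ν ⟂ₘ (volume : Measure E)) (K : ℝ≥0∞) (hK : K ≠ ∞) (R : ℝ) :
    Tendsto (fun n : ℕ => ∫⁻ x in Metric.closedBall (0 : E) R, tr K (dn ν (1 / ((n : ℝ) + 1)) x))
      atTop (𝓝 0) := by
  have hz : (0 : ℝ≥0∞) = ∫⁻ x in Metric.closedBall (0 : E) R, (0 : ℝ≥0∞) := by simp
  rw [hz]
  refine tendsto_lintegral_of_dominated_convergence (fun _ => K) ?_ ?_ ?_ ?_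
  · intro n
    exact (continuous_tr K).measurable.comp (measurable_dn ν _)
  · intro n
    exact Eventually.of_forall fun x => min_le_right _ _
  · rw [setLIntegral_const]
    exact ENNReal.mul_ne_top hK measure_closedBall_lt_top.ne
  · refine ae_restrict_of_ae ?_
    filter_upwards [Besicovitch.ae_tendsto_rnDeriv ν (volume : Measure E),
      hν.rnDeriv_ae_eq_zero] with x hx hx0
    rw [hx0] at hx
    have h1 : Tendsto (fun n : ℕ => 1 / ((n : ℝ) + 1)) atTop (𝓝[>] 0) := by
      rw [tendsto_nhdsWithin_iff]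
      refine ⟨tendsto_one_div_add_atTop_nhds_zero_nat, Eventually.of_forall fun n => ?_⟩
      simp only [mem_Ioi]; positivity
    have h2 := hx.comp h1
    have h3 := ((continuous_tr K).tendsto 0).comp h2
    rw [tr_zero] at h3
    exact h3

section
variable {H : ℝ} (f : E ≃ₜ E) (hf : WQS H f)

include hf in
theorem one_le_H : 1 ≤ H := by
  obtain ⟨e, he⟩ : ∃ e : E, e ≠ 0 := exists_ne 0
  have h := hf e 0 0 le_rfl
  have hp : 0 < ‖f e - f 0‖ := norm_pos_iff.2 (sub_ne_zero.2 fun h => he (f.injective h))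
  nlinarith

include hf in
theorem closedBall_subset {x y : E} (hxy : x ≠ y) :
    Metric.closedBall (f x) (‖f x - f y‖ / (2 * H)) ⊆ f.symm ⁻¹' Metric.closedBall x ‖x - y‖ := by
  have hH := one_le_H f hf
  intro w hw
  simp only [mem_preimage, Metric.mem_closedBall] at hw ⊢
  by_contra hc
  push Not at hc
  have h1 : ‖x - y‖ ≤ ‖x - f.symm w‖ := by
    rw [← dist_eq_norm, ← dist_eq_norm, dist_comm x (f.symm w), dist_eq_norm x y]; exact hc.le
  have h2 := hf x y (f.symm w) h1
  rw [f.apply_symm_apply, ← dist_eq_norm (f x) w, dist_comm (f x) w] at h2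
  have hp : 0 < ‖f x - f y‖ := norm_pos_iff.2 (sub_ne_zero.2 fun h => hxy (f.injective h))
  have h3 : H * dist w (f x) ≤ ‖f x - f y‖ / 2 := by
    calc H * dist w (f x) ≤ H * (‖f x - f y‖ / (2 * H)) := by gcongr
      _ = _ := by field_simp
  linarith

include hf in
/-- `(|f x - f y|/(2 H |x-y|))³ ≤ density of ν at scale |x-y|` -/
theorem cube_le {x y : E} (hxy : x ≠ y) :
    ENNReal.ofReal (‖f x - f y‖ / (2 * H * ‖x - y‖)) ^ 3 ≤
      dn (Measure.map f.symm (volume : Measure E)) ‖x - y‖ x := by
  have hH := one_le_H f hf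
  have hr : 0 < ‖x - y‖ := norm_pos_iff.2 (sub_ne_zero.2 hxy)
  set c : ℝ≥0∞ := (volume : Measure E) (Metric.ball 0 1) with hc
  have hc0 : c ≠ 0 := (Metric.measure_ball_pos _ _ one_pos).ne'
  have hct : c ≠ ∞ := measure_ball_lt_top.ne
  unfold dn
  rw [volume_closedBall_eq x hr.le, ← hc]
  have h0 : ENNReal.ofReal (‖x - y‖ ^ 3) ≠ 0 := by
    simp only [ne_eq, ENNReal.ofReal_eq_zero, not_le]; positivity
  rw [ENNReal.le_div_iff_mul_le (Or.inl (mul_ne_zero h0 hc0))
    (Or.inl (ENNReal.mul_ne_top ENNReal.ofReal_ne_top hct))]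
  rw [Measure.map_apply f.symm.continuous.measurable measurableSet_closedBall]
  calc _ = ENNReal.ofReal ((‖f x - f y‖ / (2 * H)) ^ 3) * c := by
        rw [← ENNReal.ofReal_pow (by positivity), ← mul_assoc, ← ENNReal.ofReal_mul (by positivity)]
        congr 2
        field_simp
    _ = volume (Metric.closedBall (f x) (‖f x - f y‖ / (2 * H))) := by
        rw [volume_closedBall_eq _ (by positivity)]
    _ ≤ _ := measure_mono (closedBall_subset f hf hxy)

include hf in
theorem dist_le_tr {x y : E} {r : ℝ} (hr : 0 < r) (hxy : ‖x - y‖ = r) {K : ℝ≥0∞}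
    (hK0 : K ≠ 0) (hK : K ≠ ∞) :
    ENNReal.ofReal ‖f x - f y‖ ≤ ENNReal.ofReal (2 * H * r) *
      (tr K (dn (Measure.map f.symm (volume : Measure E)) r x) +
        dn (Measure.map f.symm (volume : Measure E)) r x / K ^ 2) := by
  have hH := one_le_H f hf
  have hne : x ≠ y := by
    rintro rfl; simp at hxy; linarith
  have h := le_tr_add hK0 hK (cube_le f hf hne)
  rw [hxy] at h
  calc ENNReal.ofReal ‖f x - f y‖ =
        ENNReal.ofReal (2 * H * r) * ENNReal.ofReal (‖f x - f y‖ / (2 * H * r)) := by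
        rw [← ENNReal.ofReal_mul (by positivity)]
        congr 1
        field_simp
    _ ≤ _ := by gcongr

include hf in
/-- the chain estimate -/
theorem chain_le {e : E} (he : ‖e‖ = 1) (n : ℕ) {K : ℝ≥0∞} (hK0 : K ≠ 0) (hK : K ≠ ∞) (y : E) :
    ENNReal.ofReal ‖f y - f (y + e)‖ ≤ ∑ j ∈ Finset.range (n + 1),
      ENNReal.ofReal (2 * H * (1 / ((n : ℝ) + 1))) *
      (tr K (dn (Measure.map f.symm (volume : Measure E)) (1 / ((n : ℝ) + 1))
          (y + ((j : ℝ) / ((n : ℝ) + 1)) • e)) +
        dn (Measure.map f.symm (volume : Measure E)) (1 / ((n : ℝ) + 1))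
          (y + ((j : ℝ) / ((n : ℝ) + 1)) • e) / K ^ 2) := by
  have hn : (0 : ℝ) < (n : ℝ) + 1 := by positivity
  have h1 : ‖f y - f (y + e)‖ ≤ ∑ j ∈ Finset.range (n + 1),
      ‖f (y + ((j : ℝ) / ((n : ℝ) + 1)) • e) - f (y + (((j + 1 : ℕ) : ℝ) / ((n : ℝ) + 1)) • e)‖ := by
    have := dist_le_range_sum_dist (fun j : ℕ => f (y + ((j : ℝ) / ((n : ℝ) + 1)) • e)) (n + 1)
    simp only [dist_eq_norm] at this
    have e1 : (((n + 1 : ℕ) : ℝ) / ((n : ℝ) + 1)) = 1 := by push_cast; field_simp
    rw [e1] at this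
    simpa using this
  calc ENNReal.ofReal ‖f y - f (y + e)‖ ≤ _ := ENNReal.ofReal_le_ofReal h1
    _ = ∑ j ∈ Finset.range (n + 1), ENNReal.ofReal
      ‖f (y + ((j : ℝ) / ((n : ℝ) + 1)) • e) - f (y + (((j + 1 : ℕ) : ℝ) / ((n : ℝ) + 1)) • e)‖ :=
        ENNReal.ofReal_sum_of_nonneg fun _ _ => norm_nonneg _
    _ ≤ _ := by
        refine Finset.sum_le_sum fun j _ => ?_
        refine dist_le_tr f hf (by positivity) ?_ hK0 hK
        rw [add_sub_add_left_eq_sub, ← sub_smul, norm_smul, he, mul_one]
        push_cast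
        rw [show (j : ℝ) / ((n : ℝ) + 1) - ((j : ℝ) + 1) / ((n : ℝ) + 1) = -(1 / ((n : ℝ) + 1)) by
          field_simp; ring]
        rw [norm_neg, Real.norm_of_nonneg (by positivity)]

end

theorem setLIntegral_translate_le (F : E → ℝ≥0∞) {v : E} (hv : ‖v‖ ≤ 1) :
    ∫⁻ y in Metric.closedBall (0 : E) 1, F (y + v) ≤ ∫⁻ y in Metric.closedBall (0 : E) 2, F y := by
  rw [← lintegral_indicator measurableSet_closedBall, ← lintegral_indicator measurableSet_closedBall,
    ← lintegral_add_right_eq_self ((Metric.closedBall (0 : E) 2).indicator F) v]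
  refine lintegral_mono fun y => ?_
  by_cases hy : y ∈ Metric.closedBall (0 : E) 1
  · have : y + v ∈ Metric.closedBall (0 : E) 2 := by
      simp only [Metric.mem_closedBall, dist_zero_right] at *
      linarith [norm_add_le y v]
    rw [indicator_of_mem hy, indicator_of_mem this]
  · rw [indicator_of_notMem hy]; exact bot_le

/-- [MD1] length-area argument -/
theorem not_mutuallySingular {H : ℝ} (f : E ≃ₜ E) (hf : WQS H f) :
    ¬ (Measure.map f.symm (volume : Measure E)) ⟂ₘ (volume : Measure E) := by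
  intro hs
  set ν : Measure E := Measure.map f.symm (volume : Measure E) with hνdef
  have hlf : IsLocallyFiniteMeasure ν := by
    refine ⟨fun x => ?_⟩
    refine ⟨Metric.closedBall x 1, Metric.closedBall_mem_nhds x one_pos, ?_⟩
    rw [hνdef, Measure.map_apply f.symm.continuous.measurable measurableSet_closedBall]
    have : f.symm ⁻¹' Metric.closedBall x 1 = f '' Metric.closedBall x 1 := by
      rw [f.image_eq_preimage_symm]
    rw [this]
    exact ((isCompact_closedBall x 1).image f.continuous).measure_lt_top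
  have hH := one_le_H f hf
  obtain ⟨e, he⟩ : ∃ e : E, ‖e‖ = 1 := exists_norm_eq E zero_le_one
  set I : ℝ≥0∞ := ∫⁻ y in Metric.closedBall (0 : E) 1, ENNReal.ofReal ‖f y - f (y + e)‖ with hI
  have hmeas : Measurable (fun y : E => ENNReal.ofReal ‖f y - f (y + e)‖) := by
    have := f.continuous
    exact ENNReal.measurable_ofReal.comp (by fun_prop : Continuous fun y : E =>
      ‖f y - f (y + e)‖).measurable
  have hIpos : I ≠ 0 := by
    intro h0
    rw [hI, lintegral_eq_zero_iff hmeas] at h0
    have h1 : ∀ᵐ y ∂((volume : Measure E).restrict (Metric.closedBall (0 : E) 1)), False := by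
      filter_upwards [h0] with y hy
      have : 0 < ‖f y - f (y + e)‖ := by
        refine norm_pos_iff.2 (sub_ne_zero.2 fun h => ?_)
        have := f.injective h
        have h2 : e = 0 := by simpa using this
        rw [h2] at he; simp at he
      simp only [Pi.zero_apply, ENNReal.ofReal_eq_zero] at hy
      linarith
    have h2 : (volume : Measure E).restrict (Metric.closedBall (0 : E) 1) = 0 := by
      simpa using h1
    rw [Measure.restrict_eq_zero] at h2
    exact (Metric.measure_closedBall_pos (volume : Measure E) (0 : E) one_pos).ne' h2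
  -- main estimate
  have hmain : ∀ (K : ℝ≥0∞), K ≠ 0 → K ≠ ∞ → ∀ n : ℕ,
      I ≤ ENNReal.ofReal (2 * H) * ((∫⁻ x in Metric.closedBall (0 : E) 2,
        tr K (dn ν (1 / ((n : ℝ) + 1)) x)) + ν (Metric.closedBall (0 : E) 3) / K ^ 2) := by
    intro K hK0 hK n
    set r : ℝ := 1 / ((n : ℝ) + 1) with hr
    have hr0 : 0 < r := by positivity
    have hr1 : r ≤ 1 := by
      rw [hr, div_le_one (by positivity)]; linarith [(Nat.cast_nonneg n : (0 : ℝ) ≤ n)]
    set F : E → ℝ≥0∞ := fun x => tr K (dn ν r x) + dn ν r x / K ^ 2 with hF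
    have hFm : Measurable F := by
      refine ((continuous_tr K).measurable.comp (measurable_dn ν _)).add ?_
      exact (measurable_dn ν _).div_const _
    have h1 : I ≤ ∑ j ∈ Finset.range (n + 1), ENNReal.ofReal (2 * H * r) *
        ∫⁻ x in Metric.closedBall (0 : E) 2, F x := by
      calc I ≤ ∫⁻ y in Metric.closedBall (0 : E) 1, ∑ j ∈ Finset.range (n + 1),
            ENNReal.ofReal (2 * H * r) * F (y + ((j : ℝ) / ((n : ℝ) + 1)) • e) :=
            lintegral_mono fun y => chain_le f hf he n hK0 hK y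
        _ = ∑ j ∈ Finset.range (n + 1), ENNReal.ofReal (2 * H * r) *
            ∫⁻ y in Metric.closedBall (0 : E) 1, F (y + ((j : ℝ) / ((n : ℝ) + 1)) • e) := by
            rw [lintegral_finsetSum]
            · refine Finset.sum_congr rfl fun j _ => ?_
              rw [lintegral_const_mul]
              exact hFm.comp (measurable_id.add_const _)
            · intro j _
              exact (hFm.comp (measurable_id.add_const _)).const_mul _
        _ ≤ _ := by
            refine Finset.sum_le_sum fun j hj => ?_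
            refine mul_le_mul_right (setLIntegral_translate_le F ?_) _
            rw [norm_smul, he, mul_one, Real.norm_of_nonneg (by positivity),
              div_le_one (by positivity)]
            have : j ≤ n := by
              have := Finset.mem_range.1 hj
              omega
            have : (j : ℝ) ≤ n := by exact_mod_cast this
            linarith
    have h2 : ∑ j ∈ Finset.range (n + 1), ENNReal.ofReal (2 * H * r) *
        ∫⁻ x in Metric.closedBall (0 : E) 2, F x =
        ENNReal.ofReal (2 * H) * ∫⁻ x in Metric.closedBall (0 : E) 2, F x := by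
      rw [Finset.sum_const, Finset.card_range, nsmul_eq_mul, ← mul_assoc]
      congr 1
      rw [← ENNReal.ofReal_natCast, ← ENNReal.ofReal_mul (by positivity)]
      congr 1
      rw [hr]; push_cast; field_simp
    rw [h2] at h1
    refine h1.trans ?_
    gcongr
    have hm1 : Measurable (fun x => tr K (dn ν r x)) :=
      (continuous_tr K).measurable.comp (measurable_dn ν _)
    simp only [hF]
    rw [lintegral_add_left hm1]
    gcongr
    simp_rw [div_eq_mul_inv]
    rw [lintegral_mul_const _ (measurable_dn ν _)]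
    gcongr
    refine (lintegral_dn_le ν 2 r hr0).trans (measure_mono ?_)
    exact Metric.closedBall_subset_closedBall (by linarith)
  -- let n → ∞
  have hK' : ∀ (K : ℝ≥0∞), K ≠ 0 → K ≠ ∞ →
      I ≤ ENNReal.ofReal (2 * H) * (ν (Metric.closedBall (0 : E) 3) / K ^ 2) := by
    intro K hK0 hK
    have ht := tendsto_tr ν hs K hK 2
    have ht2 : Tendsto (fun n : ℕ => ENNReal.ofReal (2 * H) * ((∫⁻ x in Metric.closedBall (0 : E) 2,
        tr K (dn ν (1 / ((n : ℝ) + 1)) x)) + ν (Metric.closedBall (0 : E) 3) / K ^ 2)) atTop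
        (𝓝 (ENNReal.ofReal (2 * H) * (0 + ν (Metric.closedBall (0 : E) 3) / K ^ 2))) :=
      ENNReal.Tendsto.const_mul (ht.add_const _) (Or.inr ENNReal.ofReal_ne_top)
    rw [zero_add] at ht2
    exact ge_of_tendsto' ht2 (hmain K hK0 hK)
  -- let K → ∞
  set V : ℝ≥0∞ := ν (Metric.closedBall (0 : E) 3) with hV
  have hVt : V ≠ ∞ := measure_closedBall_lt_top.ne
  have ht3 : Tendsto (fun m : ℕ => ENNReal.ofReal (2 * H) * (V / ((m : ℝ≥0∞) + 1) ^ 2)) atTop
      (𝓝 (ENNReal.ofReal (2 * H) * (V / ∞))) := by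
    refine ENNReal.Tendsto.const_mul ?_ (Or.inr ENNReal.ofReal_ne_top)
    refine ENNReal.Tendsto.const_div ?_ (Or.inr hVt)
    have h1 : Tendsto (fun m : ℕ => (m : ℝ≥0∞)) atTop (𝓝 ∞) := ENNReal.tendsto_nat_nhds_top
    refine tendsto_nhds_top_mono' h1 ?_
    intro m
    simp only
    calc (m : ℝ≥0∞) ≤ (m : ℝ≥0∞) + 1 := le_self_add
      _ = ((m : ℝ≥0∞) + 1) * 1 := by rw [mul_one]
      _ ≤ ((m : ℝ≥0∞) + 1) * ((m : ℝ≥0∞) + 1) := by gcongr; exact le_add_self
      _ = _ := by ring
  rw [ENNReal.div_top, mul_zero] at ht3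
  have : I ≤ 0 := ge_of_tendsto' ht3 fun m => hK' _ (by simp) (by simp)
  exact hIpos (le_antisymm this bot_le)

end Pool.Agent.helper30.WB
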